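import Pool.Agent.Helper54.TD.Defs
import Pool.Agent.Helper54.PT.HalfA

/-! Module A2 of the TD project (MP_1d384c_nt). -/

set_option autoImplicit false

namespace Pool.Agent.Helper54.PT.H9

open Finset Filter Topology

section

variable {σ : Type} [Fintype σ] [DecidableEq σ] {q : ℕ} {J : Type} [Fintype J] [DecidableEq J]

open Classical in
/-- the first moment, with an exact constant -/
theorem exact_moment_gen {ℓ : ℕ} [Fact ℓ.Prime] (X : PData ℓ σ)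
    (τ : (J → ZMod ℓ) →+ (J → Option σ → ZMod ℓ))
    (H : (Option σ → J → ZMod ℓ) → (Option σ → J → ZMod ℓ) → (Option σ → ZMod ℓ) → Prop)
    (hX : X.Inputs q) (c : ℝ)
    (b7 : ∀ θ : (J → ZMod ℓ) × (J → ZMod ℓ) → Option σ → ZMod ℓ,
      Tendsto (fun n : ℕ => (X.ZZ PhiJ (ℓ ^ Fintype.card J) θ n -
        ∑ 𝒰 ∈ maxU PhiJ (ℓ ^ Fintype.card J), X.ZU (ℓ ^ Fintype.card J) θ 𝒰 n) / (q : ℂ) ^ n)
        atTop (𝓝 0))
    (b8 : ∀ (θ : (J → ZMod ℓ) × (J → ZMod ℓ) → Option σ → ZMod ℓ)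
      (𝒰 : Finset ((J → ZMod ℓ) × (J → ZMod ℓ))), 𝒰.card = ℓ ^ Fintype.card J → ∀ γ : ZMod ℓ,
      (∀ u ∈ 𝒰, (∀ r, θ u (some r) = 0) ∧ θ u none = γ) → ∀ n : ℕ,
        X.ZU (ℓ ^ Fintype.card J) θ 𝒰 n = ee (γ * (n : ZMod ℓ)) * ((X.sq n).card : ℂ))
    (b9 : ∀ (θ : (J → ZMod ℓ) × (J → ZMod ℓ) → Option σ → ZMod ℓ)
      (𝒰 : Finset ((J → ZMod ℓ) × (J → ZMod ℓ))), 𝒰.card = ℓ ^ Fintype.card J →
      (¬ ∃ γ, ∀ u ∈ 𝒰, (∀ r, θ u (some r) = 0) ∧ θ u none = γ) →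
        Tendsto (fun n : ℕ => X.ZU (ℓ ^ Fintype.card J) θ 𝒰 n / (q : ℂ) ^ n) atTop (𝓝 0))
    (b11 : ∀ n : ℕ, (∑ D ∈ X.sq n, ((GD X τ H D).card : ℂ)) =
      ∑ b : Option σ → J → ZMod ℓ, ∑ η : Option σ → J → ZMod ℓ, ∑ μ : Option σ → ZMod ℓ,
        hatH H b η μ * X.ZZ (PhiJ (J := J)) (ℓ ^ Fintype.card J) (thet τ b η μ) n)
    (b14 : ∀ n : ℕ, ∑ 𝒰 ∈ maxU (PhiJ (ℓ := ℓ) (J := J)) (ℓ ^ Fintype.card J),
      ∑ b : Option σ → J → ZMod ℓ, ∑ η : Option σ → J → ZMod ℓ, ∑ μ : Option σ → ZMod ℓ,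
        hatH H b η μ * mt (thet τ b η μ) 𝒰 n = (c : ℂ))
    (ε : ℝ) (hε : 0 < ε) :
    ∀ᶠ n : ℕ in atTop, |(∑ D ∈ X.sq n, ((GD X τ H D).card : ℝ)) - c * (X.sq n).card| ≤
      ε * (X.sq n).card := by
  have hq0 : (0 : ℝ) < q := by
    have := hX.two_le
    exact_mod_cast (by omega : 0 < q)
  have hqc : (q : ℂ) ≠ 0 := by exact_mod_cast (by have := hX.two_le; omega : q ≠ 0)
  -- one diagonal sum
  have hU : ∀ (θ : (J → ZMod ℓ) × (J → ZMod ℓ) → Option σ → ZMod ℓ),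
      ∀ 𝒰 ∈ maxU (PhiJ (ℓ := ℓ) (J := J)) (ℓ ^ Fintype.card J),
      Tendsto (fun n : ℕ => (X.ZU (ℓ ^ Fintype.card J) θ 𝒰 n -
        mt θ 𝒰 n * ((X.sq n).card : ℂ)) / (q : ℂ) ^ n) atTop (𝓝 0) := by
    intro θ 𝒰 h𝒰
    rw [maxU, mem_filter] at h𝒰
    have hc := h𝒰.2.2
    by_cases h : ∃ γ, ∀ u ∈ 𝒰, (∀ r, θ u (some r) = 0) ∧ θ u none = γ
    · refine tendsto_const_nhds.congr fun n => ?_
      rw [b8 θ 𝒰 hc h.choose h.choose_spec n, mt, dif_pos h, sub_self, zero_div]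
    · refine (b9 θ 𝒰 hc h).congr fun n => ?_
      rw [mt, dif_neg h, zero_mul, sub_zero]
  -- the error term
  set MT : ℕ → ℂ := fun n => ∑ 𝒰 ∈ maxU (PhiJ (ℓ := ℓ) (J := J)) (ℓ ^ Fintype.card J),
      ∑ b : Option σ → J → ZMod ℓ, ∑ η : Option σ → J → ZMod ℓ, ∑ μ : Option σ → ZMod ℓ,
        hatH H b η μ * mt (thet τ b η μ) 𝒰 n with hMT
  have hθ : ∀ (θ : (J → ZMod ℓ) × (J → ZMod ℓ) → Option σ → ZMod ℓ),
      Tendsto (fun n : ℕ => (X.ZZ PhiJ (ℓ ^ Fintype.card J) θ n -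
        ∑ 𝒰 ∈ maxU (PhiJ (ℓ := ℓ) (J := J)) (ℓ ^ Fintype.card J),
          mt θ 𝒰 n * ((X.sq n).card : ℂ)) / (q : ℂ) ^ n) atTop (𝓝 0) := by
    intro θ
    have h1 := tendsto_finsetSum (maxU (PhiJ (ℓ := ℓ) (J := J)) (ℓ ^ Fintype.card J))
      fun 𝒰 h𝒰 => hU θ 𝒰 h𝒰
    have h2 := (b7 θ).add h1
    simp only [sum_const_zero, add_zero] at h2
    refine h2.congr fun n => ?_
    rw [← sum_div, ← add_div, sum_sub_distrib]
    congr 1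
    ring
  have herr : Tendsto (fun n : ℕ => ((∑ D ∈ X.sq n, ((GD X τ H D).card : ℂ)) -
      MT n * ((X.sq n).card : ℂ)) / (q : ℂ) ^ n) atTop (𝓝 0) := by
    have h1 : Tendsto (fun n : ℕ => ∑ b : Option σ → J → ZMod ℓ,
        ∑ η : Option σ → J → ZMod ℓ, ∑ μ : Option σ → ZMod ℓ, hatH H b η μ *
          ((X.ZZ PhiJ (ℓ ^ Fintype.card J) (thet τ b η μ) n -
        ∑ 𝒰 ∈ maxU (PhiJ (ℓ := ℓ) (J := J)) (ℓ ^ Fintype.card J),
          mt (thet τ b η μ) 𝒰 n * ((X.sq n).card : ℂ)) / (q : ℂ) ^ n)) atTop (𝓝 0) := by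
      have h2 : (0 : ℂ) = ∑ b : Option σ → J → ZMod ℓ,
        ∑ η : Option σ → J → ZMod ℓ, ∑ μ : Option σ → ZMod ℓ, hatH H b η μ * 0 := by
        simp
      rw [h2]
      exact tendsto_finsetSum _ fun b _ => tendsto_finsetSum _ fun η _ =>
        tendsto_finsetSum _ fun μ _ => (hθ _).const_mul _
    refine h1.congr fun n => ?_
    rw [b11 n, hMT]
    simp only
    have h3 : (∑ 𝒰 ∈ maxU (PhiJ (ℓ := ℓ) (J := J)) (ℓ ^ Fintype.card J),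
        ∑ b : Option σ → J → ZMod ℓ, ∑ η : Option σ → J → ZMod ℓ, ∑ μ : Option σ → ZMod ℓ,
        hatH H b η μ * mt (thet τ b η μ) 𝒰 n) * ((X.sq n).card : ℂ) =
        ∑ b : Option σ → J → ZMod ℓ, ∑ η : Option σ → J → ZMod ℓ, ∑ μ : Option σ → ZMod ℓ,
          hatH H b η μ * ∑ 𝒰 ∈ maxU (PhiJ (ℓ := ℓ) (J := J)) (ℓ ^ Fintype.card J),
            mt (thet τ b η μ) 𝒰 n * ((X.sq n).card : ℂ) := by
      rw [sum_comm, sum_mul]
      refine sum_congr rfl fun b _ => ?_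
      rw [sum_comm, sum_mul]
      refine sum_congr rfl fun η _ => ?_
      rw [sum_comm, sum_mul]
      refine sum_congr rfl fun μ _ => ?_
      rw [mul_sum, sum_mul]
      refine sum_congr rfl fun 𝒰 _ => ?_
      ring
    rw [h3]
    simp only [← sum_sub_distrib, sum_div, mul_sub, mul_div_assoc, sub_div]
  obtain ⟨c₁, hc, hlow⟩ := hX.lower
  have hsmall := (Metric.tendsto_nhds.1 herr) (ε * c₁) (by positivity)
  filter_upwards [hsmall, hlow] with n h1 h2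
  rw [dist_zero_right, norm_div, norm_pow, Complex.norm_natCast, div_lt_iff₀ (by positivity)] at h1
  have hMTc : MT n = (c : ℂ) := b14 n
  rw [hMTc] at h1
  have h3 : ‖(∑ D ∈ X.sq n, ((GD X τ H D).card : ℂ)) - (c : ℂ) * ((X.sq n).card : ℂ)‖ =
      |(∑ D ∈ X.sq n, ((GD X τ H D).card : ℝ)) - c * (X.sq n).card| := by
    have h3' : (∑ D ∈ X.sq n, ((GD X τ H D).card : ℂ)) - (c : ℂ) * ((X.sq n).card : ℂ) =
        (((∑ D ∈ X.sq n, ((GD X τ H D).card : ℝ)) - c * (X.sq n).card : ℝ) : ℂ) := by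
      push_cast
      rfl
    rw [h3', Complex.norm_real, Real.norm_eq_abs]
  rw [h3] at h1
  refine h1.le.trans ?_
  have := mul_le_mul_of_nonneg_left h2 hε.le
  calc ε * c₁ * (q : ℝ) ^ n = ε * (c₁ * (q : ℝ) ^ n) := by ring
    _ ≤ _ := this

end

end Pool.Agent.Helper54.PT.H9

namespace Pool.Agent.Helper54.PT

open Finset Filter Topology

section Moments

variable {ℓ : ℕ} [Fact ℓ.Prime] {σ : Type} [Fintype σ] [DecidableEq σ] (X : PData ℓ σ) {q : ℕ}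
  {J : Type} [Fintype J] [DecidableEq J] (τ : (J → ZMod ℓ) →+ (J → Option σ → ZMod ℓ))
  (H : (Option σ → J → ZMod ℓ) → (Option σ → J → ZMod ℓ) → (Option σ → ZMod ℓ) → Prop)

/-- A2: the exact first moment -/
theorem moment_exact (hX : X.Inputs q) (c : ℝ)
    (hc : ∀ n : ℕ, ∑ 𝒰 ∈ maxU (PhiJ (ℓ := ℓ) (J := J)) (ℓ ^ Fintype.card J),
      ∑ b : Option σ → J → ZMod ℓ, ∑ η : Option σ → J → ZMod ℓ, ∑ μ : Option σ → ZMod ℓ,
        hatH H b η μ * mt (thet τ b η μ) 𝒰 n = (c : ℂ)) (ε : ℝ) (hε : 0 < ε) :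
    ∀ᶠ n : ℕ in atTop, |(∑ D ∈ X.sq n, ((GD X τ H D).card : ℝ)) - c * (X.sq n).card| ≤
      ε * (X.sq n).card := by
  classical
  have hp : ℓ.Prime := Fact.out
  have hM : 1 ≤ ℓ ^ Fintype.card J := Nat.one_le_pow _ _ hp.pos
  have hΦ : ∀ u : (J → ZMod ℓ) × (J → ZMod ℓ), PhiJ u u = 0 := fun u => by
    simp [PhiJ]
  refine H9.exact_moment_gen X τ H hX c (fun θ => ?_)
    (fun θ 𝒰 h𝒰 γ h n => ?_) (fun θ 𝒰 h𝒰 h => ?_) (fun n => ?_) hc ε hε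
  · refine key X PhiJ (ℓ ^ Fintype.card J) θ hX hM hΦ (fun 𝒰 h => card_le_of_unl 𝒰 h)
      (fun m n hm u u' hne hle => SS_linked X PhiJ (ℓ ^ Fintype.card J) θ hX hM hΦ m n hm u u' hne hle)
      ?_ ?_ ?_ ?_
    · exact few_large X (ℓ ^ Fintype.card J) hX hM
    · exact SS_small X PhiJ (ℓ ^ Fintype.card J) θ hX hM hΦ (fun 𝒰 h => card_le_of_unl 𝒰 h)
    · exact fun 𝒰 h𝒰 n => SS_diag X PhiJ (ℓ ^ Fintype.card J) θ hΦ h𝒰 n
    · exact fun m => SS_trivial X PhiJ (ℓ ^ Fintype.card J) θ hM m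
  · exact ZU_const X (ℓ ^ Fintype.card J) θ hM h𝒰 γ h n
  · exact ZU_small X (ℓ ^ Fintype.card J) θ hX hM h𝒰 h
  · exact sum_card_GD H X τ n fun b η μ => card_pcond X τ n b η μ

end Moments

end Pool.Agent.Helper54.PT
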