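import Pool.Agent.Helper9.TD.D123

/-! Module D4 of the TD project (MP_1d384c_nt). -/

set_option autoImplicit false

namespace Pool.Agent.Helper54.PT.H9

open Finset Module

section

variable {ℓ : ℕ} [Fact ℓ.Prime] {ι : Type} [Fintype ι] [DecidableEq ι] {σ : Type} [Fintype σ]
  {a : ι → ℕ} {i₀ : ι} {A : ι → ι → Option σ → ZMod ℓ} {k : ℕ}

/-- `x = γ w` satisfies `β x = w` -/
theorem bt_gamma (ha : ∀ i, ¬ ℓ ∣ a i) (hs : ¬ ℓ ∣ ∑ i, a i)
    (w t : {j : ι // j ≠ i₀} → ZMod ℓ) :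
    bt (betaG a i₀) (fun j => ∑ j', gammaG a i₀ j j' * w j') t = ∑ j, w j * t j := by
  have hg : ∀ i j : {j : ι // j ≠ i₀}, gammaG (ℓ := ℓ) a i₀ i j = gammaG a i₀ j i := by
    intro i j
    unfold gammaG
    by_cases h : i = j
    · subst h
      rfl
    · rw [if_neg h, if_neg (Ne.symm h)]
  unfold bt
  have h1 : ∑ i, ∑ j, betaG a i₀ i j * (∑ j', gammaG a i₀ i j' * w j') * t j =
      ∑ j, ∑ j', (∑ i, gammaG a i₀ j' i * betaG a i₀ i j) * (w j' * t j) := by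
    rw [sum_comm]
    refine sum_congr rfl fun j _ => ?_
    have h2 : ∀ i, betaG a i₀ i j * (∑ j', gammaG a i₀ i j' * w j') * t j =
        ∑ j', gammaG a i₀ j' i * betaG a i₀ i j * (w j' * t j) := by
      intro i
      rw [mul_sum, sum_mul]
      refine sum_congr rfl fun j' _ => ?_
      rw [hg i j']
      ring
    rw [sum_congr rfl fun i _ => h2 i, sum_comm]
    exact sum_congr rfl fun j' _ => by rw [sum_mul]
  rw [h1]
  refine sum_congr rfl fun j _ => ?_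
  have h3 : ∀ j' : {j : ι // j ≠ i₀},
      (∑ i, gammaG (ℓ := ℓ) a i₀ j' i * betaG a i₀ i j) * (w j' * t j) =
      if j' = j then w j' * t j else 0 := by
    intro j'
    rw [gammaG_inv ha hs]
    split_ifs <;> ring
  rw [sum_congr rfl fun j' _ => h3 j', sum_ite_eq', if_pos (mem_univ j)]

/-- first components -/
def Vf (a : ι → ℕ) (i₀ : ι) (i : ι) (κ : Fin k)
    (u : ({j : ι // j ≠ i₀} × Fin k → ZMod ℓ) × ({j : ι // j ≠ i₀} × Fin k → ZMod ℓ)) : ZMod ℓ :=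
  ext a i₀ (fun j => u.1 (j, κ)) i

/-- second components -/
def Wf (a : ι → ℕ) (i₀ : ι) (i : ι) (κ : Fin k)
    (u : ({j : ι // j ≠ i₀} × Fin k → ZMod ℓ) × ({j : ι // j ≠ i₀} × Fin k → ZMod ℓ)) : ZMod ℓ :=
  ext a i₀ (fun j => ∑ j', gammaG a i₀ j j' * u.2 (j', κ)) i

theorem Vf_add (i : ι) (κ : Fin k)
    (u u' : ({j : ι // j ≠ i₀} × Fin k → ZMod ℓ) × ({j : ι // j ≠ i₀} × Fin k → ZMod ℓ)) :
    Vf a i₀ i κ (u + u') = Vf a i₀ i κ u + Vf a i₀ i κ u' :=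
  congrFun (ext_add a i₀ (fun j => u.1 (j, κ)) (fun j => u'.1 (j, κ))) i

theorem Wf_add (i : ι) (κ : Fin k)
    (u u' : ({j : ι // j ≠ i₀} × Fin k → ZMod ℓ) × ({j : ι // j ≠ i₀} × Fin k → ZMod ℓ)) :
    Wf a i₀ i κ (u + u') = Wf a i₀ i κ u + Wf a i₀ i κ u' := by
  have h1 := congrFun (ext_add a i₀ (fun j : {j : ι // j ≠ i₀} =>
    ∑ j', gammaG (ℓ := ℓ) a i₀ j j' * u.2 (j', κ))
    (fun j => ∑ j', gammaG a i₀ j j' * u'.2 (j', κ))) i
  have h2 : (fun j : {j : ι // j ≠ i₀} => ∑ j', gammaG (ℓ := ℓ) a i₀ j j' * (u + u').2 (j', κ)) =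
      (fun j : {j : ι // j ≠ i₀} => ∑ j', gammaG (ℓ := ℓ) a i₀ j j' * u.2 (j', κ)) +
        fun j => ∑ j', gammaG a i₀ j j' * u'.2 (j', κ) := by
    funext j
    show ∑ j', gammaG a i₀ j j' * (u.2 (j', κ) + u'.2 (j', κ)) = _
    simp only [mul_add, sum_add_distrib, Pi.add_apply]
  unfold Wf
  rw [h2]
  exact h1

/-- the function attached to `τ` in terms of all indices -/
theorem sum_tauK (ha : ∀ i, ¬ ℓ ∣ a i) (hs : ¬ ℓ ∣ ∑ i, a i) (hA : ∀ i j s, A i j s = A j i s)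
    (u : ({j : ι // j ≠ i₀} × Fin k → ZMod ℓ) × ({j : ι // j ≠ i₀} × Fin k → ZMod ℓ))
    (s : Option σ) :
    ∑ p, u.2 p * tauK k (tauG a i₀ A) u.1 p s = (asum ℓ a)⁻¹ * ∑ κ, ∑ i, ∑ m,
      (a i : ZMod ℓ) * a m * A m i s * (Vf a i₀ i κ u - Vf a i₀ m κ u) * Wf a i₀ i κ u := by
  rw [Fintype.sum_prod_type, sum_comm, mul_sum]
  refine sum_congr rfl fun κ _ => ?_
  have h1 := bt_gamma ha hs (fun j => u.2 (j, κ))
    (fun j => tauG a i₀ A (fun j => u.1 (j, κ)) j s)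
  have h2 := bt_tauG ha hs hA (fun j => u.1 (j, κ))
    (fun j => ∑ j', gammaG a i₀ j j' * u.2 (j', κ)) s
  rw [h1] at h2
  exact h2

theorem sum_QQ (ha : ∀ i, ¬ ℓ ∣ a i) (hs : ¬ ℓ ∣ ∑ i, a i)
    (u : ({j : ι // j ≠ i₀} × Fin k → ZMod ℓ) × ({j : ι // j ≠ i₀} × Fin k → ZMod ℓ)) :
    ∑ p, u.2 p * u.1 p = ∑ κ, ∑ i, (a i : ZMod ℓ) * (Vf a i₀ i κ u * Wf a i₀ i κ u) := by
  rw [Fintype.sum_prod_type, sum_comm]
  refine sum_congr rfl fun κ _ => ?_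
  have h1 := bt_gamma ha hs (fun j => u.2 (j, κ)) (fun j => u.1 (j, κ))
  rw [bt_betaG ha] at h1
  rw [← h1]
  exact sum_congr rfl fun i _ => by
    show _ = (a i : ZMod ℓ) * (Vf a i₀ i κ u * Wf a i₀ i κ u)
    unfold Vf Wf
    ring

/-- the key identity -/
theorem key_id (ha : ∀ i, ¬ ℓ ∣ a i) (hs : ¬ ℓ ∣ ∑ i, a i) (hA : ∀ i j s, A i j s = A j i s)
    (i m : ι) (him : i ≠ m) (c : Option σ → ZMod ℓ) (c₀ : ZMod ℓ)
    (hc : ∀ m' n, m' ≠ n → ∑ s, c s * A m' n s + c₀ = if s(m', n) = s(i, m) then 1 else 0)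
    (u : ({j : ι // j ≠ i₀} × Fin k → ZMod ℓ) × ({j : ι // j ≠ i₀} × Fin k → ZMod ℓ)) :
    ∑ s, c s * ∑ p, u.2 p * tauK k (tauG a i₀ A) u.1 p s + c₀ * ∑ p, u.2 p * u.1 p =
      (asum ℓ a)⁻¹ * a i * a m * ∑ κ, (Vf a i₀ i κ u - Vf a i₀ m κ u) *
        (Wf a i₀ i κ u - Wf a i₀ m κ u) := by
  have hS : asum ℓ a ≠ 0 := asum_ne hs
  have h1 : ∑ s, c s * ∑ p, u.2 p * tauK k (tauG a i₀ A) u.1 p s = (asum ℓ a)⁻¹ *
      ∑ κ, ∑ i', ∑ m', (∑ s, c s * A m' i' s) *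
        ((a i' : ZMod ℓ) * a m' * (Vf a i₀ i' κ u - Vf a i₀ m' κ u) * Wf a i₀ i' κ u) := by
    have e1 : ∀ s, c s * ∑ p, u.2 p * tauK k (tauG a i₀ A) u.1 p s = (asum ℓ a)⁻¹ *
        ∑ κ, ∑ i', ∑ m', c s * A m' i' s *
          ((a i' : ZMod ℓ) * a m' * (Vf a i₀ i' κ u - Vf a i₀ m' κ u) * Wf a i₀ i' κ u) := by
      intro s
      rw [sum_tauK ha hs hA]
      simp only [mul_sum]
      refine sum_congr rfl fun κ _ => sum_congr rfl fun i' _ => sum_congr rfl fun m' _ => ?_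
      ring
    rw [sum_congr rfl fun s _ => e1 s, ← mul_sum]
    congr 1
    rw [sum_comm]
    refine sum_congr rfl fun κ _ => ?_
    rw [sum_comm]
    refine sum_congr rfl fun i' _ => ?_
    rw [sum_comm]
    refine sum_congr rfl fun m' _ => ?_
    rw [sum_mul]
  have h2 : c₀ * ∑ p, u.2 p * u.1 p = (asum ℓ a)⁻¹ *
      ∑ κ, ∑ i', ∑ m', c₀ *
        ((a i' : ZMod ℓ) * a m' * (Vf a i₀ i' κ u - Vf a i₀ m' κ u) * Wf a i₀ i' κ u) := by
    rw [sum_QQ ha hs, mul_sum, mul_sum]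
    refine sum_congr rfl fun κ _ => ?_
    rw [mul_sum, mul_sum]
    refine sum_congr rfl fun i' _ => ?_
    have e2 : ∑ m', c₀ * ((a i' : ZMod ℓ) * a m' * (Vf a i₀ i' κ u - Vf a i₀ m' κ u) *
        Wf a i₀ i' κ u) = c₀ * (a i' : ZMod ℓ) * Wf a i₀ i' κ u * (asum ℓ a * Vf a i₀ i' κ u -
          ∑ m', (a m' : ZMod ℓ) * Vf a i₀ m' κ u) := by
      unfold asum
      rw [sum_mul, ← sum_sub_distrib, mul_sum]
      exact sum_congr rfl fun m' _ => by ring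
    have e3 : ∑ m', (a m' : ZMod ℓ) * Vf a i₀ m' κ u = 0 := sum_ext_zero ha _
    rw [e2, e3, sub_zero]
    field_simp
  have h3 : ∀ κ : Fin k, ∑ i', ∑ m', (∑ s, c s * A m' i' s + c₀) *
      ((a i' : ZMod ℓ) * a m' * (Vf a i₀ i' κ u - Vf a i₀ m' κ u) * Wf a i₀ i' κ u) =
      (a i : ZMod ℓ) * a m * ((Vf a i₀ i κ u - Vf a i₀ m κ u) *
        (Wf a i₀ i κ u - Wf a i₀ m κ u)) := by
    intro κ
    have e4 : ∀ i' m', (∑ s, c s * A m' i' s + c₀) *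
        ((a i' : ZMod ℓ) * a m' * (Vf a i₀ i' κ u - Vf a i₀ m' κ u) * Wf a i₀ i' κ u) =
        (if i' = i then (if m' = m then
          ((a i : ZMod ℓ) * a m * (Vf a i₀ i κ u - Vf a i₀ m κ u) * Wf a i₀ i κ u) else 0)
          else 0) +
        (if i' = m then (if m' = i then
          ((a i : ZMod ℓ) * a m * (Vf a i₀ m κ u - Vf a i₀ i κ u) * Wf a i₀ m κ u) else 0)
          else 0) := by
      intro i' m'
      by_cases hne : m' = i'
      · subst hne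
        rw [sub_self, mul_zero, zero_mul, mul_zero]
        by_cases h1 : m' = i
        · subst h1
          rw [if_pos rfl, if_neg him, if_neg him, add_zero]
        · rw [if_neg h1]
          by_cases h2 : m' = m
          · subst h2
            rw [if_pos rfl, if_neg h1, add_zero]
          · rw [if_neg h2, add_zero]
      · rw [hc m' i' hne]
        by_cases h1 : i' = i
        · subst h1
          rw [if_pos rfl, if_neg him, add_zero]
          by_cases h2 : m' = m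
          · subst h2
            rw [if_pos (Sym2.eq_swap), if_pos rfl, one_mul]
          · rw [if_neg h2, if_neg, zero_mul]
            intro h3
            rcases Sym2.eq_iff.1 h3 with ⟨h4, _⟩ | ⟨h4, _⟩
            · exact hne h4
            · exact h2 h4
        · rw [if_neg h1, zero_add]
          by_cases h2 : i' = m
          · subst h2
            rw [if_pos rfl]
            by_cases h3 : m' = i
            · subst h3
              rw [if_pos rfl, if_pos rfl, one_mul]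
              ring
            · rw [if_neg h3, if_neg, zero_mul]
              intro h4
              rcases Sym2.eq_iff.1 h4 with ⟨h5, _⟩ | ⟨h5, h6⟩
              · exact h3 h5
              · exact h1 h6
          · rw [if_neg h2, if_neg, zero_mul]
            intro h4
            rcases Sym2.eq_iff.1 h4 with ⟨_, h5⟩ | ⟨_, h5⟩
            · exact h2 h5
            · exact h1 h5
    rw [sum_congr rfl fun i' _ => sum_congr rfl fun m' _ => e4 i' m']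
    simp only [sum_add_distrib, sum_ite_eq', sum_ite_irrel, sum_const_zero, mem_univ, if_true]
    ring
  rw [h1, h2, ← mul_add, ← sum_add_distrib]
  have h4 : ∀ κ : Fin k, (∑ i', ∑ m', (∑ s, c s * A m' i' s) *
        ((a i' : ZMod ℓ) * a m' * (Vf a i₀ i' κ u - Vf a i₀ m' κ u) * Wf a i₀ i' κ u)) +
      (∑ i', ∑ m', c₀ *
        ((a i' : ZMod ℓ) * a m' * (Vf a i₀ i' κ u - Vf a i₀ m' κ u) * Wf a i₀ i' κ u)) =
      (a i : ZMod ℓ) * a m * ((Vf a i₀ i κ u - Vf a i₀ m κ u) *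
        (Wf a i₀ i κ u - Wf a i₀ m κ u)) := by
    intro κ
    rw [← h3 κ, ← sum_add_distrib]
    refine sum_congr rfl fun i' _ => ?_
    rw [← sum_add_distrib]
    exact sum_congr rfl fun m' _ => by rw [add_mul]
  rw [sum_congr rfl fun κ _ => h4 κ, ← mul_sum]
  ring

end

end Pool.Agent.Helper54.PT.H9

namespace Pool.Agent.Helper54.PT

open Finset Module H9

section Curve

variable {ℓ : ℕ} [Fact ℓ.Prime] {ι : Type} [Fintype ι] [DecidableEq ι] {σ : Type} [Fintype σ]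
  {a : ι → ℕ} {i₀ : ι} {A : ι → ι → Option σ → ZMod ℓ}

/-- D4: the polar forms of the differences vanish (uses D1, D2, D3) -/
theorem polar_zero (ha : ∀ i, ¬ ℓ ∣ a i) (hs : ¬ ℓ ∣ ∑ i, a i)
    (hA : ∀ i j s, A i j s = A j i s) (hind : IndA A) (k : ℕ)
    (𝒰 : Finset (({j : ι // j ≠ i₀} × Fin k → ZMod ℓ) × ({j : ι // j ≠ i₀} × Fin k → ZMod ℓ)))
    (hU : Unl PhiJ 𝒰) (u₀ : ({j : ι // j ≠ i₀} × Fin k → ZMod ℓ) ×
      ({j : ι // j ≠ i₀} × Fin k → ZMod ℓ))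
    (W : Submodule (ZMod ℓ) (({j : ι // j ≠ i₀} × Fin k → ZMod ℓ) ×
      ({j : ι // j ≠ i₀} × Fin k → ZMod ℓ))) (hW : ∀ u, u ∈ 𝒰 ↔ u - u₀ ∈ W)
    (h : ∀ s, ∃ (η ω : {j : ι // j ≠ i₀} × Fin k → ZMod ℓ) (c : ZMod ℓ), ∀ u ∈ 𝒰,
      ∑ p, u.2 p * tauK k (tauG a i₀ A) u.1 p s = ∑ p, (η p * u.1 p + ω p * u.2 p) + c)
    (x y : ({j : ι // j ≠ i₀} × Fin k → ZMod ℓ) × ({j : ι // j ≠ i₀} × Fin k → ZMod ℓ))
    (hx : x ∈ W) (hy : y ∈ W) (i m : ι) (him : i ≠ m) :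
    phiK (extP a i₀ (rows (gammaG a i₀) x) i - extP a i₀ (rows (gammaG a i₀) x) m)
      (extP a i₀ (rows (gammaG a i₀) y) i - extP a i₀ (rows (gammaG a i₀) y) m) = 0 := by
  have m0 : u₀ ∈ 𝒰 := (hW u₀).2 (by rw [sub_self]; exact W.zero_mem)
  have mx : u₀ + x ∈ 𝒰 := (hW _).2 (by rw [add_sub_cancel_left]; exact hx)
  have my : u₀ + y ∈ 𝒰 := (hW _).2 (by rw [add_sub_cancel_left]; exact hy)
  have mxy : u₀ + x + y ∈ 𝒰 := (hW _).2 (by
    rw [add_assoc, add_sub_cancel_left]; exact W.add_mem hx hy)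
  obtain ⟨c, c₀, hc⟩ := hind i m him
  -- second differences of the functions attached to tau
  have hT : ∀ s, (∑ p, (u₀ + x + y).2 p * tauK k (tauG a i₀ A) (u₀ + x + y).1 p s) -
      (∑ p, (u₀ + x).2 p * tauK k (tauG a i₀ A) (u₀ + x).1 p s) -
      (∑ p, (u₀ + y).2 p * tauK k (tauG a i₀ A) (u₀ + y).1 p s) +
      (∑ p, u₀.2 p * tauK k (tauG a i₀ A) u₀.1 p s) = 0 := by
    intro s
    obtain ⟨η, ω, d, hd⟩ := h s
    rw [hd _ mxy, hd _ mx, hd _ my, hd _ m0]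
    have e1 : ∑ p, (η p * (u₀ + x + y).1 p + ω p * (u₀ + x + y).2 p) =
        ∑ p, (η p * (u₀ + x).1 p + ω p * (u₀ + x).2 p) +
          ∑ p, (η p * (u₀ + y).1 p + ω p * (u₀ + y).2 p) -
            ∑ p, (η p * u₀.1 p + ω p * u₀.2 p) := by
      rw [← sum_add_distrib, ← sum_sub_distrib]
      refine sum_congr rfl fun p _ => ?_
      simp only [Prod.fst_add, Prod.snd_add, Pi.add_apply]
      ring
    rw [e1]
    ring
  -- the quadratic form vanishes on differences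
  have hQ : ∀ u ∈ 𝒰, ∀ u' ∈ 𝒰, ∑ p, (u - u').2 p * (u - u').1 p = 0 := by
    intro u hu u' hu'
    have h1 := hU u hu u' hu'
    unfold PhiJ at h1
    rw [← sum_add_distrib] at h1
    rw [← neg_zero, ← h1, ← sum_neg_distrib]
    refine sum_congr rfl fun p _ => ?_
    simp only [Prod.fst_sub, Prod.snd_sub, Pi.sub_apply]
    ring
  have hQ2 : (∑ p, (u₀ + x + y).2 p * (u₀ + x + y).1 p) - (∑ p, (u₀ + x).2 p * (u₀ + x).1 p) -
      (∑ p, (u₀ + y).2 p * (u₀ + y).1 p) + (∑ p, u₀.2 p * u₀.1 p) = 0 := by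
    have q1 := hQ _ mxy _ m0
    have q2 := hQ _ mx _ m0
    have q3 := hQ _ my _ m0
    have e1 : (∑ p, (u₀ + x + y).2 p * (u₀ + x + y).1 p) -
        (∑ p, (u₀ + x).2 p * (u₀ + x).1 p) -
        (∑ p, (u₀ + y).2 p * (u₀ + y).1 p) + (∑ p, u₀.2 p * u₀.1 p) =
        (∑ p, (u₀ + x + y - u₀).2 p * (u₀ + x + y - u₀).1 p) -
        (∑ p, (u₀ + x - u₀).2 p * (u₀ + x - u₀).1 p) -
        (∑ p, (u₀ + y - u₀).2 p * (u₀ + y - u₀).1 p) := by
      simp only [← sum_sub_distrib, ← sum_add_distrib]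
      refine sum_congr rfl fun p _ => ?_
      simp only [Prod.fst_sub, Prod.snd_sub, Pi.sub_apply, Prod.fst_add, Prod.snd_add,
        Pi.add_apply]
      ring
    rw [e1, q1, q2, q3]
    ring
  have k1 := key_id ha hs hA i m him c c₀ hc (u₀ + x + y)
  have k2 := key_id ha hs hA i m him c c₀ hc (u₀ + x)
  have k3 := key_id ha hs hA i m him c c₀ hc (u₀ + y)
  have k4 := key_id ha hs hA i m him c c₀ hc u₀
  have h5 : (asum ℓ a)⁻¹ * a i * a m * ∑ κ : Fin k,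
      ((Vf a i₀ i κ x - Vf a i₀ m κ x) * (Wf a i₀ i κ y - Wf a i₀ m κ y) +
        (Vf a i₀ i κ y - Vf a i₀ m κ y) * (Wf a i₀ i κ x - Wf a i₀ m κ x)) = 0 := by
    have e1 : (asum ℓ a)⁻¹ * a i * a m * ∑ κ : Fin k,
        ((Vf a i₀ i κ x - Vf a i₀ m κ x) * (Wf a i₀ i κ y - Wf a i₀ m κ y) +
          (Vf a i₀ i κ y - Vf a i₀ m κ y) * (Wf a i₀ i κ x - Wf a i₀ m κ x)) =
        (asum ℓ a)⁻¹ * a i * a m * (∑ κ, (Vf a i₀ i κ (u₀ + x + y) - Vf a i₀ m κ (u₀ + x + y)) *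
          (Wf a i₀ i κ (u₀ + x + y) - Wf a i₀ m κ (u₀ + x + y))) -
        (asum ℓ a)⁻¹ * a i * a m * (∑ κ, (Vf a i₀ i κ (u₀ + x) - Vf a i₀ m κ (u₀ + x)) *
          (Wf a i₀ i κ (u₀ + x) - Wf a i₀ m κ (u₀ + x))) -
        (asum ℓ a)⁻¹ * a i * a m * (∑ κ, (Vf a i₀ i κ (u₀ + y) - Vf a i₀ m κ (u₀ + y)) *
          (Wf a i₀ i κ (u₀ + y) - Wf a i₀ m κ (u₀ + y))) +
        (asum ℓ a)⁻¹ * a i * a m * (∑ κ, (Vf a i₀ i κ u₀ - Vf a i₀ m κ u₀) *
          (Wf a i₀ i κ u₀ - Wf a i₀ m κ u₀)) := by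
      rw [← mul_sub, ← mul_sub, ← mul_add]
      congr 1
      simp only [← sum_sub_distrib, ← sum_add_distrib]
      refine sum_congr rfl fun κ _ => ?_
      simp only [Vf_add, Wf_add]
      ring
    rw [e1, ← k1, ← k2, ← k3, ← k4]
    have e2 : ∑ s, c s * ((∑ p, (u₀ + x + y).2 p * tauK k (tauG a i₀ A) (u₀ + x + y).1 p s) -
      (∑ p, (u₀ + x).2 p * tauK k (tauG a i₀ A) (u₀ + x).1 p s) -
      (∑ p, (u₀ + y).2 p * tauK k (tauG a i₀ A) (u₀ + y).1 p s) +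
      (∑ p, u₀.2 p * tauK k (tauG a i₀ A) u₀.1 p s)) = 0 :=
      sum_eq_zero fun s _ => by rw [hT s, mul_zero]
    simp only [mul_add, mul_sub, sum_add_distrib, sum_sub_distrib] at e2
    linear_combination e2 + c₀ * hQ2
  have hne : (asum ℓ a)⁻¹ * a i * a m ≠ 0 := by
    refine mul_ne_zero (mul_ne_zero (inv_ne_zero (asum_ne hs)) (cast_ne (ha i))) (cast_ne (ha m))
  have h6 := (mul_eq_zero.1 h5).resolve_left hne
  exact h6

end Curve

end Pool.Agent.Helper54.PT
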