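import Pool.Agent.Helper9.TD.D123
import Pool.Agent.Helper11.TG.F12

/-! Module D7 of the TD project (MP_1d384c_nt). -/

set_option autoImplicit false

namespace Pool.Agent.Helper54.PT.H9

open Finset Module

section

variable {ℓ : ℕ} {J : Type} [Fintype J] {β : J → J → ZMod ℓ}

theorem bt_add_right (x y z : J → ZMod ℓ) :
    bt β x (fun j => y j + z j) = bt β x y + bt β x z := by
  unfold bt
  simp only [mul_add, sum_add_distrib]

theorem bt_add_left (x y z : J → ZMod ℓ) :
    bt β (fun j => x j + y j) z = bt β x z + bt β y z := by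
  unfold bt
  simp only [mul_add, add_mul, sum_add_distrib]

end

section

variable {ℓ : ℕ} {σ : Type} [Fintype σ] [DecidableEq σ] {dR : σ → ZMod ℓ} {sR : σ → σ → ZMod ℓ}

theorem zlG_symm (hs : ∀ r r', r ≠ r' → sR r r' = sR r' r) (b b' : Option σ → ZMod ℓ) :
    ∑ t, b t * zlG dR sR b' 0 t = ∑ t, zlG dR sR b 0 t * b' t := by
  rw [Fintype.sum_option, Fintype.sum_option]
  simp only [zlG, Pi.zero_apply, add_zero]
  have h1 : ∑ r, b (some r) * (∑ r' ∈ univ.erase r, b' (some r') * sR r r' + b' none * dR r) =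
      (∑ r, ∑ r', if r' = r then 0 else b (some r) * b' (some r') * sR r r') +
        ∑ r, b (some r) * (b' none * dR r) := by
    rw [← sum_add_distrib]
    refine sum_congr rfl fun r _ => ?_
    rw [mul_add, mul_sum]
    congr 1
    rw [← add_sum_erase univ _ (mem_univ r), if_pos rfl, zero_add]
    refine sum_congr rfl fun r' hr' => ?_
    rw [if_neg (mem_erase.1 hr').1]
    ring
  have h2 : ∑ r, (∑ r' ∈ univ.erase r, b (some r') * sR r r' + b none * dR r) * b' (some r) =
      (∑ r, ∑ r', if r' = r then 0 else b (some r') * b' (some r) * sR r r') +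
        ∑ r, (b none * dR r) * b' (some r) := by
    rw [← sum_add_distrib]
    refine sum_congr rfl fun r _ => ?_
    rw [add_mul, sum_mul]
    congr 1
    rw [← add_sum_erase univ _ (mem_univ r), if_pos rfl, zero_add]
    refine sum_congr rfl fun r' hr' => ?_
    rw [if_neg (mem_erase.1 hr').1]
    ring
  have h3 : (∑ r, ∑ r', if r' = r then 0 else b (some r) * b' (some r') * sR r r') =
      ∑ r, ∑ r', if r' = r then 0 else b (some r') * b' (some r) * sR r r' := by
    rw [sum_comm]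
    refine sum_congr rfl fun r _ => sum_congr rfl fun r' _ => ?_
    by_cases h : r' = r
    · rw [if_pos h, if_pos h.symm]
    · rw [if_neg h, if_neg (Ne.symm h), hs r' r h]
  rw [h1, h2, h3, sum_mul, mul_sum]
  have h4 : ∑ r, b none * (dR r * b' (some r)) = ∑ r, b none * dR r * b' (some r) :=
    sum_congr rfl fun r _ => by ring
  have h5 : ∑ r, dR r * b (some r) * b' none = ∑ r, b (some r) * (b' none * dR r) :=
    sum_congr rfl fun r _ => by ring
  rw [h4, h5]
  ring

variable {J : Type} [Fintype J] {β : J → J → ZMod ℓ}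

theorem bt_zlG_symm (hs : ∀ r r', r ≠ r' → sR r r' = sR r' r) (b b' : Option σ → J → ZMod ℓ) :
    ∑ t, bt β (b t) (fun j => zlG dR sR (fun s => b' s j) 0 t) =
      ∑ t, bt β (fun j => zlG dR sR (fun s => b s j) 0 t) (b' t) := by
  unfold bt
  rw [sum_comm, sum_comm (s := (univ : Finset (Option σ)))]
  refine sum_congr rfl fun i _ => ?_
  rw [sum_comm, sum_comm (s := (univ : Finset (Option σ)))]
  refine sum_congr rfl fun j _ => ?_
  have h := zlG_symm (dR := dR) hs (fun s => b s i) (fun s => b' s j)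
  have h1 : ∑ t, β i j * b t i * zlG dR sR (fun s => b' s j) 0 t =
      β i j * ∑ t, b t i * zlG dR sR (fun s => b' s j) 0 t := by
    rw [mul_sum]
    exact sum_congr rfl fun t _ => by ring
  have h2 : ∑ t, β i j * zlG dR sR (fun s => b s i) 0 t * b' t j =
      β i j * ∑ t, zlG dR sR (fun s => b s i) 0 t * b' t j := by
    rw [mul_sum]
    exact sum_congr rfl fun t _ => by ring
  rw [h1, h2, h]

end

section

variable {ℓ : ℕ} [Fact ℓ.Prime] {ι : Type} [Fintype ι] [DecidableEq ι] {a : ι → ℕ} {i₀ : ι}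

omit [Fact ℓ.Prime] [Fintype ι] [DecidableEq ι] in
theorem zmod2_one : ∀ x : ZMod 2, x ≠ 0 → x = 1 := by decide

omit [Fact ℓ.Prime] [Fintype ι] [DecidableEq ι] in
theorem zmod2_four : (1 : ZMod 2) + 1 * 1 * 1 = 0 := by decide

theorem bt_betaG_symm (ha : ∀ i, ¬ ℓ ∣ a i) (v w : {j : ι // j ≠ i₀} → ZMod ℓ) :
    bt (betaG a i₀) v w = bt (betaG a i₀) w v := by
  rw [bt_betaG ha, bt_betaG ha]
  exact sum_congr rfl fun i _ => by ring

theorem bG_eq (ha : ∀ i, ¬ ℓ ∣ a i) (w w' : LSG ℓ i₀) :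
    bG a i₀ w w' = bt (betaG a i₀) w.1 w'.2 - bt (betaG a i₀) w.2 w'.1 := by
  rw [bt_betaG ha, bt_betaG ha, ← sum_sub_distrib]
  unfold bG
  refine sum_congr rfl fun i _ => ?_
  unfold pzG exG
  ring

theorem alt_betaG (ha : ∀ i, ¬ ℓ ∣ a i) (c : ZMod ℓ) (hc : c + c = 0)
    (i : {j : ι // j ≠ i₀}) : c * betaG a i₀ i i = 0 := by
  by_cases h2 : ℓ = 2
  · subst h2
    have hi : (a i.1 : ZMod 2) = 1 := zmod2_one _ (cast_ne (ha i.1))
    have h0 : (a i₀ : ZMod 2) = 1 := zmod2_one _ (cast_ne (ha i₀))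
    have h3 : betaG (ℓ := 2) a i₀ i i = (if i = i then (a i.1 : ZMod 2) else 0) +
      a i.1 * a i.1 * (a i₀ : ZMod 2)⁻¹ := rfl
    rw [h3, if_pos rfl, hi, h0, inv_one]
    have h4 : (1 : ZMod 2) + 1 * 1 * 1 = 0 := zmod2_four
    rw [h4, mul_zero]
  · have h4 : (2 : ZMod ℓ) ≠ 0 := by
      intro h
      have h5 : ((2 : ℕ) : ZMod ℓ) = 0 := by exact_mod_cast h
      rw [ZMod.natCast_eq_zero_iff] at h5
      have hp : ℓ.Prime := Fact.out
      exact h2 ((Nat.prime_dvd_prime_iff_eq hp Nat.prime_two).1 h5)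
    have h5 : (2 : ZMod ℓ) * c = 0 := by
      rw [two_mul]
      exact hc
    rcases mul_eq_zero.1 h5 with h | h
    · exact absurd h h4
    · rw [h, zero_mul]

end

section

variable {ℓ : ℕ} [Fact ℓ.Prime] {ι : Type} [Fintype ι] [DecidableEq ι] {σ : Type} [Fintype σ]
  [DecidableEq σ] {a : ι → ℕ} {i₀ : ι} {dR : σ → ZMod ℓ} {sR : σ → σ → ZMod ℓ}
  {A : ι → ι → Option σ → ZMod ℓ} {M : Option σ → ZMod ℓ → Submodule (ZMod ℓ) (LSG ℓ i₀)}

/-- the local conditions as a product of the spaces `M t` -/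
def equivHMG (κ : Option σ → ZMod ℓ) :
    {x : (Option σ → {j : ι // j ≠ i₀} → ZMod ℓ) × (Option σ → {j : ι // j ≠ i₀} → ZMod ℓ) //
      HMG i₀ dR sR M x.1 x.2 κ} ≃ ((t : Option σ) → M t (κ t)) where
  toFun x t := ⟨_, x.2 t⟩
  invFun w := ⟨(fun t j => (w t).1.1 j, fun t j => (w t).1.2 j -
      zlG dR sR (fun s => (w s).1.1 j) 0 t), fun t => by
    have h := (w t).2
    have e : ((fun j => (w t).1.1 j, fun j => zlG dR sR (fun s => (w s).1.1 j)
        (fun s => (w s).1.2 j - zlG dR sR (fun s => (w s).1.1 j) 0 s) t) : LSG ℓ i₀) =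
          (w t).1 := by
      refine Prod.ext rfl ?_
      funext j
      show zlG dR sR (fun s => (w s).1.1 j)
        (fun s => (w s).1.2 j - zlG dR sR (fun s => (w s).1.1 j) 0 s) t = (w t).1.2 j
      rw [f12_zlG]
      ring
    show ((fun j => (w t).1.1 j, fun j => zlG dR sR (fun s => (w s).1.1 j)
        (fun s => (w s).1.2 j - zlG dR sR (fun s => (w s).1.1 j) 0 s) t) : LSG ℓ i₀) ∈ M t (κ t)
    rw [e]
    exact h⟩
  left_inv x := by
    apply Subtype.ext
    refine Prod.ext rfl ?_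
    funext t j
    show zlG dR sR (fun s => x.1.1 s j) (fun s => x.1.2 s j) t -
      zlG dR sR (fun s => x.1.1 s j) 0 t = x.1.2 t j
    rw [f12_zlG]
    ring
  right_inv w := by
    funext t
    apply Subtype.ext
    refine Prod.ext rfl ?_
    funext j
    show zlG dR sR (fun s => (w s).1.1 j)
        (fun s => (w s).1.2 j - zlG dR sR (fun s => (w s).1.1 j) 0 s) t = (w t).1.2 j
    rw [f12_zlG]
    ring

theorem card_HMG_eq (hM : LDG a i₀ dR sR A M) (κ : Option σ → ZMod ℓ) :
    Nat.card {x : (Option σ → {j : ι // j ≠ i₀} → ZMod ℓ) ×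
      (Option σ → {j : ι // j ≠ i₀} → ZMod ℓ) // HMG i₀ dR sR M x.1 x.2 κ} =
        ℓ ^ (Fintype.card {j : ι // j ≠ i₀} * (Fintype.card σ + 1)) := by
  classical
  rw [Nat.card_congr (equivHMG κ), Nat.card_pi]
  have h1 : ∀ t, Nat.card (M t (κ t)) = ℓ ^ Fintype.card {j : ι // j ≠ i₀} := by
    intro t
    rw [Module.natCard_eq_pow_finrank (K := ZMod ℓ), hM.dim t (κ t), Nat.card_zmod]
  rw [prod_congr rfl fun t _ => h1 t, prod_const, card_univ, Fintype.card_option, ← pow_mul]

end

end Pool.Agent.Helper54.PT.H9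

namespace Pool.Agent.Helper54.PT

open Finset Module H9

section Curve

variable {ℓ : ℕ} [Fact ℓ.Prime] {ι : Type} [Fintype ι] [DecidableEq ι] {σ : Type} [Fintype σ]
  [DecidableEq σ] {a : ι → ℕ} {i₀ : ι} {dR : σ → ZMod ℓ} {sR : σ → σ → ZMod ℓ}
  {A : ι → ι → Option σ → ZMod ℓ} {M : Option σ → ZMod ℓ → Submodule (ZMod ℓ) (LSG ℓ i₀)}

/-- D7: the hypotheses on the local conditions (uses D1, D2, D3) -/
theorem tdat_HMG (ha : ∀ i, ¬ ℓ ∣ a i) (hs : ¬ ℓ ∣ ∑ i, a i)
    (hA : ∀ i j s, A i j s = A j i s) (hM : LDG a i₀ dR sR A M)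
    (hq : ∀ c : ZMod ℓ, c + c = 0 → ∀ b y κ, HMG i₀ dR sR M b y κ →
      c * ∑ s, bt (betaG a i₀) (b s) (y s) =
        c * ∑ s, bt (betaG a i₀) (y s) (fun j => tauG a i₀ A (y s) j s)) :
    TDat (betaG a i₀) (gammaG a i₀) (tauG a i₀ A) (HMG i₀ dR sR M) where
  sym i j := by
    unfold betaG
    by_cases h : i = j
    · subst h
      rfl
    · rw [if_neg h, if_neg (Ne.symm h)]
      ring
  inv := gammaG_inv ha hs
  alt c hc i := alt_betaG ha c hc i
  self s v w := by
    rw [bt_tauG ha hs hA, bt_tauG ha hs hA]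
    congr 1
    have e1 : ∀ v w : {j : ι // j ≠ i₀} → ZMod ℓ,
        ∑ i, ∑ m, (a i : ZMod ℓ) * a m * A m i s * (ext a i₀ v i - ext a i₀ v m) *
          ext a i₀ w i =
        (∑ i, ∑ m, (a i : ZMod ℓ) * a m * A m i s * (ext a i₀ v i * ext a i₀ w i)) -
          ∑ i, ∑ m, (a i : ZMod ℓ) * a m * A m i s * (ext a i₀ v m * ext a i₀ w i) := by
      intro v w
      rw [← sum_sub_distrib]
      refine sum_congr rfl fun i _ => ?_
      rw [← sum_sub_distrib]
      exact sum_congr rfl fun m _ => by ring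
    rw [e1, e1]
    congr 1
    · exact sum_congr rfl fun i _ => sum_congr rfl fun m _ => by ring
    · rw [sum_comm]
      refine sum_congr rfl fun i _ => sum_congr rfl fun m _ => ?_
      rw [hA i m s]
      ring
  add b y b' y' κ h h' := by
    intro t
    have h1 := (M t (κ t)).add_mem (h t) (h' t)
    refine (congrArg (fun w => w ∈ M t (κ t)) ?_).mp h1
    refine Prod.ext rfl ?_
    funext j
    change zlG dR sR (fun s => b s j) (fun s => y s j) t +
      zlG dR sR (fun s => b' s j) (fun s => y' s j) t =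
        zlG dR sR (fun s => b s j + b' s j) (fun s => y s j + y' s j) t
    rw [f12_zlG_add]
  card κ := card_HMG_eq hM κ
  tor v κ := by
    intro t
    have h1 := hM.tor t (κ t) v
    refine (congrArg (fun w => w ∈ M t (κ t)) ?_).mp h1
    refine Prod.ext rfl ?_
    funext j
    change _ = zlG dR sR (fun s => tauG a i₀ A v j s) (fun s => κ s * v j) t
    rw [f12_zlG dR sR _ (fun s => κ s * v j)]
  iso b y b' y' κ h h' := by
    have h1 : ∀ t, bt (betaG a i₀) (b t) (fun j => zlG dR sR (fun s => b' s j) 0 t + y' t j) =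
        bt (betaG a i₀) (fun j => zlG dR sR (fun s => b s j) 0 t + y t j) (b' t) := by
      intro t
      have h2 := hM.iso t (κ t) _ (h t) _ (h' t)
      rw [bG_eq ha, sub_eq_zero] at h2
      have e1 : (fun j : {j : ι // j ≠ i₀} => zlG dR sR (fun s => b s j) (fun s => y s j) t) =
          fun j => zlG dR sR (fun s => b s j) 0 t + y t j := by
        funext j
        rw [f12_zlG]
      have e2 : (fun j : {j : ι // j ≠ i₀} => zlG dR sR (fun s => b' s j) (fun s => y' s j) t) =
          fun j => zlG dR sR (fun s => b' s j) 0 t + y' t j := by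
        funext j
        rw [f12_zlG]
      simp only [e1, e2] at h2
      exact h2
    have h3 := sum_congr rfl fun (t : Option σ) (_ : t ∈ univ) => h1 t
    simp only [bt_add_right, bt_add_left, sum_add_distrib] at h3
    have h4 := bt_zlG_symm (β := betaG (ℓ := ℓ) a i₀) (dR := dR) hM.sym b b'
    rw [h4] at h3
    have h5 := add_left_cancel h3
    rw [h5]
    exact sum_congr rfl fun t _ => bt_betaG_symm ha _ _
  quad c hc b y κ h := hq c hc b y κ h

end Curve

end Pool.Agent.Helper54.PT
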