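import Pool.Agent.Helper9.TD.D7

/-! Module D8 of the TD project (MP_1d384c_nt). -/

set_option autoImplicit false

namespace Pool.Agent.Helper54.PT.H9

open Finset Module

section

variable {ℓ : ℕ} {σ : Type} [Fintype σ] [DecidableEq σ] {dR : σ → ZMod ℓ} {sR : σ → σ → ZMod ℓ}

theorem zlG_mul (c : ZMod ℓ) (b : Option σ → ZMod ℓ) (t : Option σ) :
    zlG dR sR (fun s => c * b s) 0 t = c * zlG dR sR b 0 t := by
  cases t with
  | none =>
    simp only [zlG, Pi.zero_apply, add_zero]
    rw [mul_sum]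
    exact sum_congr rfl fun r _ => by ring
  | some r =>
    simp only [zlG, Pi.zero_apply, add_zero]
    rw [mul_add, mul_sum]
    congr 1
    · exact sum_congr rfl fun r _ => by ring
    · ring

theorem zlG_sum {κ : Type} (T : Finset κ) (f : κ → Option σ → ZMod ℓ) (t : Option σ) :
    zlG dR sR (fun s => ∑ j ∈ T, f j s) 0 t = ∑ j ∈ T, zlG dR sR (f j) 0 t := by
  cases t with
  | none =>
    simp only [zlG, Pi.zero_apply, add_zero]
    rw [sum_comm]
    exact sum_congr rfl fun r _ => by rw [mul_sum]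
  | some r =>
    simp only [zlG, Pi.zero_apply, add_zero]
    rw [sum_add_distrib, sum_mul, sum_comm]
    congr 1
    exact sum_congr rfl fun r _ => by rw [sum_mul]

variable {ι : Type} [Fintype ι] [DecidableEq ι] {a : ι → ℕ} {i₀ : ι}

theorem ext_zlG (b : Option σ → {j : ι // j ≠ i₀} → ZMod ℓ) (t : Option σ) (i : ι) :
    ext a i₀ (fun j => zlG dR sR (fun s => b s j) 0 t) i =
      zlG dR sR (fun s => ext a i₀ (b s) i) 0 t := by
  by_cases h : i = i₀
  · subst h
    simp only [ext_base]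
    have h1 : (fun s => -((a i : ZMod ℓ)⁻¹ * ∑ j : {j : ι // j ≠ i}, (a j.1 : ZMod ℓ) * b s j)) =
        fun s => (-(a i : ZMod ℓ)⁻¹) * ∑ j : {j : ι // j ≠ i}, (a j.1 : ZMod ℓ) * b s j := by
      funext s
      ring
    rw [h1, zlG_mul, zlG_sum]
    rw [← neg_mul]
    congr 1
    exact sum_congr rfl fun j _ => (zlG_mul _ _ _).symm
  · have h1 := fun v : {j : ι // j ≠ i₀} → ZMod ℓ => ext_val (a := a) v ⟨i, h⟩
    simp only at h1
    rw [h1]
    simp only [h1]

theorem ext_add' (v w : {j : ι // j ≠ i₀} → ZMod ℓ) (i : ι) :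
    ext a i₀ (fun j => v j + w j) i = ext a i₀ v i + ext a i₀ w i :=
  congrFun (ext_add a i₀ v w) i

end

theorem sum_symm_two {κ : Type} [Fintype κ] [DecidableEq κ] (F : κ → κ → ZMod 2)
    (hF : ∀ i m, F i m = F m i) (h0 : ∀ i, F i i = 0) : ∑ i, ∑ m, F i m = 0 := by
  have h2 : ∀ x : ZMod 2, x + x = 0 := by decide
  rw [← Fintype.sum_prod_type' (f := F)]
  refine Finset.sum_involution (fun p _ => (p.2, p.1)) ?_ ?_ ?_ ?_
  · rintro ⟨i, m⟩ _
    show F i m + F m i = 0
    rw [hF m i]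
    exact h2 _
  · rintro ⟨i, m⟩ _ hne heq
    have h3 := (Prod.mk.inj heq).1
    simp only at h3
    subst h3
    exact hne (h0 _)
  · intro p _
    exact mem_univ _
  · rintro ⟨i, m⟩ _
    rfl

theorem zlG_self_two {σ : Type} [Fintype σ] [DecidableEq σ] {dR : σ → ZMod 2}
    {sR : σ → σ → ZMod 2} (hs : ∀ r r', r ≠ r' → sR r r' = sR r' r) (b : Option σ → ZMod 2) :
    ∑ t, b t * zlG dR sR b 0 t = 0 := by
  have h2 : ∀ x : ZMod 2, x + x = 0 := by decide
  rw [Fintype.sum_option]
  simp only [zlG, Pi.zero_apply, add_zero]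
  have h1 : ∑ r, b (some r) * (∑ r' ∈ univ.erase r, b (some r') * sR r r' + b none * dR r) =
      (∑ r, ∑ r', if r' = r then 0 else b (some r) * b (some r') * sR r r') +
        b none * ∑ r, dR r * b (some r) := by
    rw [mul_sum, ← sum_add_distrib]
    refine sum_congr rfl fun r _ => ?_
    rw [mul_add, mul_sum]
    congr 1
    · rw [← add_sum_erase univ _ (mem_univ r), if_pos rfl, zero_add]
      refine sum_congr rfl fun r' hr' => ?_
      rw [if_neg (mem_erase.1 hr').1]
      ring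
    · ring
  have h3 : (∑ r, ∑ r', if r' = r then 0 else b (some r) * b (some r') * sR r r') = 0 := by
    refine sum_symm_two _ (fun r r' => ?_) (fun r => if_pos rfl)
    by_cases h : r' = r
    · rw [if_pos h, if_pos h.symm]
    · rw [if_neg h, if_neg (Ne.symm h), hs r r' (Ne.symm h)]
      ring
  rw [h1, h3, zero_add]
  exact h2 _

end Pool.Agent.Helper54.PT.H9

namespace Pool.Agent.Helper54.PT

open Finset Module H9

section CurveTwo

variable {ι : Type} [Fintype ι] [DecidableEq ι] {σ : Type} [Fintype σ]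
  [DecidableEq σ] {a : ι → ℕ} {i₀ : ι} {dR : σ → ZMod 2} {sR : σ → σ → ZMod 2}
  {A : ι → ι → Option σ → ZMod 2} {M : Option σ → ZMod 2 → Submodule (ZMod 2) (LSG 2 i₀)}

/-- D8: the quadratic relation (uses D1, D3) -/
theorem quad_HMG (ha : ∀ i, ¬ 2 ∣ a i) (hs : ¬ 2 ∣ ∑ i, a i)
    (hA : ∀ i j s, A i j s = A j i s) (hM : LDG a i₀ dR sR A M)
    (hq : ∀ t c, ∀ w ∈ M t c, qG a i₀ (gG dR sR A t) w = 0)
    (b y : Option σ → {j : ι // j ≠ i₀} → ZMod 2) (κ : Option σ → ZMod 2)
    (h : HMG i₀ dR sR M b y κ) :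
    ∑ s, bt (betaG a i₀) (b s) (y s) =
      ∑ s, bt (betaG a i₀) (y s) (fun j => tauG a i₀ A (y s) j s) := by
  have hsq : ∀ x : ZMod 2, x * x = x := by decide
  have hone : ∀ i, (a i : ZMod 2) = 1 := fun i => zmod2_one _ (cast_ne (ha i))
  have hasum : asum 2 a = 1 := zmod2_one _ (asum_ne hs)
  -- the relation at a place
  have h1 : ∀ t, ∑ i, (ext a i₀ (b t) i * zlG dR sR (fun s => ext a i₀ (b s) i) 0 t +
      ext a i₀ (b t) i * ext a i₀ (y t) i +
      ext a i₀ (b t) i * zlG dR sR (fun s => ∑ m ∈ univ.erase i, A i m s) 0 t -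
      (zlG dR sR (fun s => ext a i₀ (b s) i) 0 t * ∑ m ∈ univ.erase i, A i m t +
        ext a i₀ (y t) i * ∑ m ∈ univ.erase i, A i m t)) = 0 := by
    intro t
    have h2 := hq t (κ t) _ (h t)
    unfold qG at h2
    rw [← h2]
    refine sum_congr rfl fun i _ => ?_
    have e1 : (fun j : {j : ι // j ≠ i₀} => zlG dR sR (fun s => b s j) (fun s => y s j) t) =
        fun j => zlG dR sR (fun s => b s j) 0 t + y t j := by
      funext j
      rw [f12_zlG]
    have e2 : ext a i₀ (fun j : {j : ι // j ≠ i₀} =>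
        zlG dR sR (fun s => b s j) (fun s => y s j) t) i =
          zlG dR sR (fun s => ext a i₀ (b s) i) 0 t + ext a i₀ (y t) i := by
      rw [e1, ext_add', ext_zlG]
    unfold exG pzG gG
    simp only [e2]
    ring
  have h2 : ∑ t, ∑ i, (ext a i₀ (b t) i * zlG dR sR (fun s => ext a i₀ (b s) i) 0 t +
      ext a i₀ (b t) i * ext a i₀ (y t) i +
      ext a i₀ (b t) i * zlG dR sR (fun s => ∑ m ∈ univ.erase i, A i m s) 0 t -
      (zlG dR sR (fun s => ext a i₀ (b s) i) 0 t * ∑ m ∈ univ.erase i, A i m t +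
        ext a i₀ (y t) i * ∑ m ∈ univ.erase i, A i m t)) = 0 :=
    sum_eq_zero fun t _ => h1 t
  simp only [sum_add_distrib, sum_sub_distrib] at h2
  have h3 : ∑ t, ∑ i, ext a i₀ (b t) i * zlG dR sR (fun s => ext a i₀ (b s) i) 0 t = 0 := by
    rw [sum_comm]
    exact sum_eq_zero fun i _ => zlG_self_two hM.sym (fun s => ext a i₀ (b s) i)
  have h4 : ∑ t, ∑ i, ext a i₀ (b t) i *
      zlG dR sR (fun s => ∑ m ∈ univ.erase i, A i m s) 0 t =
      ∑ t, ∑ i, zlG dR sR (fun s => ext a i₀ (b s) i) 0 t * ∑ m ∈ univ.erase i, A i m t := by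
    rw [sum_comm, sum_comm (s := (univ : Finset (Option σ)))]
    exact sum_congr rfl fun i _ => zlG_symm hM.sym (fun s => ext a i₀ (b s) i)
      (fun s => ∑ m ∈ univ.erase i, A i m s)
  rw [h3, h4] at h2
  have h5 : ∑ t, ∑ i, ext a i₀ (b t) i * ext a i₀ (y t) i =
      ∑ t, ∑ i, ext a i₀ (y t) i * ∑ m ∈ univ.erase i, A i m t := by
    have h6 := sub_eq_zero.1 h2
    rw [zero_add, add_comm] at h6
    exact add_left_cancel h6
  have h6 : ∀ t, bt (betaG a i₀) (b t) (y t) = ∑ i, ext a i₀ (b t) i * ext a i₀ (y t) i := by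
    intro t
    rw [bt_betaG ha]
    exact sum_congr rfl fun i _ => by rw [hone, one_mul]
  have h7 : ∀ t, bt (betaG a i₀) (y t) (fun j => tauG a i₀ A (y t) j t) =
      ∑ i, ext a i₀ (y t) i * ∑ m ∈ univ.erase i, A i m t := by
    intro t
    rw [bt_tauG ha hs hA, hasum, inv_one, one_mul]
    have h8 : ∑ i, ∑ m, (a i : ZMod 2) * a m * A m i t *
        (ext a i₀ (y t) i - ext a i₀ (y t) m) * ext a i₀ (y t) i =
        (∑ i, ext a i₀ (y t) i * ∑ m ∈ univ.erase i, A i m t) -
          ∑ i, ∑ m, if m = i then 0 else A i m t * ext a i₀ (y t) i * ext a i₀ (y t) m := by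
      rw [← sum_sub_distrib]
      refine sum_congr rfl fun i _ => ?_
      rw [← add_sum_erase univ _ (mem_univ i),
        ← add_sum_erase univ (fun m => if m = i then (0 : ZMod 2) else
          A i m t * ext a i₀ (y t) i * ext a i₀ (y t) m) (mem_univ i)]
      rw [if_pos rfl, sub_self, mul_zero, zero_mul, zero_add, zero_add, mul_sum,
        ← sum_sub_distrib]
      refine sum_congr rfl fun m hm => ?_
      rw [if_neg (mem_erase.1 hm).1, hone, hone, hA m i t]
      have h9 := hsq (ext a i₀ (y t) i)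
      calc 1 * 1 * A i m t * (ext a i₀ (y t) i - ext a i₀ (y t) m) * ext a i₀ (y t) i
          = A i m t * (ext a i₀ (y t) i * ext a i₀ (y t) i) -
            A i m t * ext a i₀ (y t) i * ext a i₀ (y t) m := by ring
        _ = _ := by
          rw [h9]
          ring
    rw [h8]
    have h9 : (∑ i, ∑ m, if m = i then 0 else
        A i m t * ext a i₀ (y t) i * ext a i₀ (y t) m) = 0 := by
      refine sum_symm_two _ (fun i m => ?_) (fun i => if_pos rfl)
      by_cases h : m = i
      · rw [if_pos h, if_pos h.symm]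
      · rw [if_neg h, if_neg (Ne.symm h), hA i m t]
        ring
    rw [h9, sub_zero]
  rw [sum_congr rfl fun t _ => h6 t, sum_congr rfl fun t _ => h7 t]
  exact h5

end CurveTwo

end Pool.Agent.Helper54.PT
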