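import Pool.Agent.Helper54.TD.Defs

/-! Modules D1, D2, D3 of the TD project (MP_1d384c_nt). -/

set_option autoImplicit false

namespace Pool.Agent.Helper54.PT.H9

open Finset

section

variable {ℓ : ℕ} {ι : Type} [Fintype ι] [DecidableEq ι] {a : ι → ℕ} {i₀ : ι}

theorem ext_base (v : {j : ι // j ≠ i₀} → ZMod ℓ) : ext a i₀ v i₀ =
    -((a i₀ : ZMod ℓ)⁻¹ * ∑ j : {j : ι // j ≠ i₀}, (a j.1 : ZMod ℓ) * v j) := by
  unfold ext
  rw [dif_pos rfl]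

theorem ext_val (v : {j : ι // j ≠ i₀} → ZMod ℓ) (j : {j : ι // j ≠ i₀}) :
    ext a i₀ v j.1 = v j := by
  unfold ext
  rw [dif_neg j.2]

theorem sum_split {M : Type*} [AddCommMonoid M] (f : ι → M) :
    ∑ i, f i = f i₀ + ∑ j : {j : ι // j ≠ i₀}, f j.1 :=
  Fintype.sum_eq_add_sum_subtype_ne f i₀

theorem cast_ne {n : ℕ} (h : ¬ ℓ ∣ n) : (n : ZMod ℓ) ≠ 0 := by
  intro h0
  exact h ((ZMod.natCast_eq_zero_iff n ℓ).1 h0)

theorem asum_ne (hs : ¬ ℓ ∣ ∑ i, a i) : asum ℓ a ≠ 0 := by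
  unfold asum
  rw [← Nat.cast_sum]
  exact cast_ne hs

/-- the sum of the entries of the extension with weights is zero -/
theorem sum_ext_zero [Fact ℓ.Prime] (ha : ∀ i, ¬ ℓ ∣ a i) (v : {j : ι // j ≠ i₀} → ZMod ℓ) :
    ∑ i, (a i : ZMod ℓ) * ext a i₀ v i = 0 := by
  rw [sum_split (i₀ := i₀)]
  simp only [ext_val, ext_base]
  have h0 : (a i₀ : ZMod ℓ) ≠ 0 := cast_ne (ha i₀)
  rw [mul_neg, ← mul_assoc, mul_inv_cancel₀ h0, one_mul, neg_add_cancel]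

/-- a vector with weighted sum zero is the extension of its restriction -/
theorem ext_eq [Fact ℓ.Prime] (ha : ∀ i, ¬ ℓ ∣ a i) (u : ι → ZMod ℓ)
    (hu : ∑ i, (a i : ZMod ℓ) * u i = 0) (i : ι) :
    ext a i₀ (fun j : {j : ι // j ≠ i₀} => u j.1) i = u i := by
  by_cases h : i = i₀
  · subst h
    rw [ext_base]
    rw [sum_split (i₀ := i)] at hu
    have h0 : (a i : ZMod ℓ) ≠ 0 := cast_ne (ha i)
    have h1 : ∑ j : {j : ι // j ≠ i}, (a j.1 : ZMod ℓ) * u j.1 = -((a i : ZMod ℓ) * u i) := by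
      rw [eq_neg_iff_add_eq_zero, add_comm]
      exact hu
    rw [h1, mul_neg, neg_neg, ← mul_assoc, inv_mul_cancel₀ h0, one_mul]
  · exact ext_val _ ⟨i, h⟩

end

end Pool.Agent.Helper54.PT.H9

namespace Pool.Agent.Helper54.PT

open Finset H9

section Curve

variable {ℓ : ℕ} [Fact ℓ.Prime] {ι : Type} [Fintype ι] [DecidableEq ι] {σ : Type}
  {a : ι → ℕ} {i₀ : ι} {A : ι → ι → Option σ → ZMod ℓ}

/-- D1: the form in terms of all indices -/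
theorem bt_betaG (ha : ∀ i, ¬ ℓ ∣ a i) (v w : {j : ι // j ≠ i₀} → ZMod ℓ) :
    bt (betaG a i₀) v w = ∑ i, (a i : ZMod ℓ) * (ext a i₀ v i * ext a i₀ w i) := by
  have h0 : (a i₀ : ZMod ℓ) ≠ 0 := cast_ne (ha i₀)
  rw [sum_split (i₀ := i₀)]
  simp only [ext_val, ext_base]
  have h1 : bt (betaG a i₀) v w = ∑ j : {j : ι // j ≠ i₀}, (a j.1 : ZMod ℓ) * (v j * w j) +
      (a i₀ : ZMod ℓ)⁻¹ * ((∑ j : {j : ι // j ≠ i₀}, (a j.1 : ZMod ℓ) * v j) *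
        ∑ j : {j : ι // j ≠ i₀}, (a j.1 : ZMod ℓ) * w j) := by
    unfold bt
    rw [sum_mul_sum, mul_sum, ← sum_add_distrib]
    refine sum_congr rfl fun j _ => ?_
    rw [mul_sum]
    have h2 : (a j.1 : ZMod ℓ) * (v j * w j) =
        ∑ j' : {j : ι // j ≠ i₀}, if j = j' then (a j.1 : ZMod ℓ) * (v j * w j') else 0 := by
      rw [sum_ite_eq, if_pos (mem_univ j)]
    rw [h2, ← sum_add_distrib]
    refine sum_congr rfl fun j' _ => ?_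
    unfold betaG
    split_ifs <;> ring
  rw [h1]
  have h3 : (a i₀ : ZMod ℓ) * (-((a i₀ : ZMod ℓ)⁻¹ * ∑ j : {j : ι // j ≠ i₀},
      (a j.1 : ZMod ℓ) * v j) * -((a i₀ : ZMod ℓ)⁻¹ * ∑ j : {j : ι // j ≠ i₀},
      (a j.1 : ZMod ℓ) * w j)) = (a i₀ : ZMod ℓ)⁻¹ * ((∑ j : {j : ι // j ≠ i₀},
      (a j.1 : ZMod ℓ) * v j) * ∑ j : {j : ι // j ≠ i₀}, (a j.1 : ZMod ℓ) * w j) := by
    field_simp
  rw [h3, add_comm]

/-- D2: the inverse matrix -/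
theorem gammaG_inv (ha : ∀ i, ¬ ℓ ∣ a i) (hs : ¬ ℓ ∣ ∑ i, a i) (i k : {j : ι // j ≠ i₀}) :
    ∑ j, gammaG (ℓ := ℓ) a i₀ i j * betaG a i₀ j k = if i = k then 1 else 0 := by
  have h0 : (a i₀ : ZMod ℓ) ≠ 0 := cast_ne (ha i₀)
  have hi : (a i.1 : ZMod ℓ) ≠ 0 := cast_ne (ha i.1)
  have hS : asum ℓ a ≠ 0 := asum_ne hs
  have h1 : asum ℓ a = (a i₀ : ZMod ℓ) + ∑ j : {j : ι // j ≠ i₀}, (a j.1 : ZMod ℓ) := by
    unfold asum
    exact sum_split (i₀ := i₀) _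
  have h2 : ∀ j, gammaG (ℓ := ℓ) a i₀ i j * betaG a i₀ j k =
      (if i = j then (a i.1 : ZMod ℓ)⁻¹ * betaG a i₀ j k else 0) -
        ((if j = k then (asum ℓ a)⁻¹ * (a j.1 : ZMod ℓ) else 0) +
          (asum ℓ a)⁻¹ * (a k.1 : ZMod ℓ) * (a i₀ : ZMod ℓ)⁻¹ * (a j.1 : ZMod ℓ)) := by
    intro j
    have h3 : betaG (ℓ := ℓ) a i₀ j k = (if j = k then (a j.1 : ZMod ℓ) else 0) +
      a j.1 * a k.1 * (a i₀ : ZMod ℓ)⁻¹ := rfl
    have h4 : gammaG (ℓ := ℓ) a i₀ i j = (if i = j then (a i.1 : ZMod ℓ)⁻¹ else 0) -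
      (asum ℓ a)⁻¹ := rfl
    rw [h4, sub_mul]
    congr 1
    · split_ifs <;> ring
    · rw [h3]
      split_ifs <;> ring
  rw [sum_congr rfl fun j _ => h2 j, sum_sub_distrib, sum_add_distrib, sum_ite_eq, sum_ite_eq',
    if_pos (mem_univ _), if_pos (mem_univ _), ← mul_sum]
  have h5 : ∑ j : {j : ι // j ≠ i₀}, (a j.1 : ZMod ℓ) = asum ℓ a - (a i₀ : ZMod ℓ) := by
    rw [h1]
    ring
  rw [h5]
  have h3 : betaG (ℓ := ℓ) a i₀ i k = (if i = k then (a i.1 : ZMod ℓ) else 0) +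
      a i.1 * a k.1 * (a i₀ : ZMod ℓ)⁻¹ := rfl
  rw [h3]
  split_ifs
  · field_simp
    ring
  · field_simp
    ring

/-- D3: `τ` and the differences -/
theorem bt_tauG (ha : ∀ i, ¬ ℓ ∣ a i) (hs : ¬ ℓ ∣ ∑ i, a i) (hA : ∀ i j s, A i j s = A j i s)
    (v w : {j : ι // j ≠ i₀} → ZMod ℓ) (s : Option σ) :
    bt (betaG a i₀) w (fun j => tauG a i₀ A v j s) = (asum ℓ a)⁻¹ *
      ∑ i, ∑ m, (a i : ZMod ℓ) * a m * A m i s * (ext a i₀ v i - ext a i₀ v m) *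
        ext a i₀ w i := by
  have h1 : ∑ i, (a i : ZMod ℓ) * (∑ m, (a m : ZMod ℓ) * (asum ℓ a)⁻¹ *
      (ext a i₀ v i - ext a i₀ v m) * A m i s) = 0 := by
    have e1 : ∑ i, (a i : ZMod ℓ) * (∑ m, (a m : ZMod ℓ) * (asum ℓ a)⁻¹ *
        (ext a i₀ v i - ext a i₀ v m) * A m i s) =
        (∑ i, ∑ m, (asum ℓ a)⁻¹ * (a i : ZMod ℓ) * a m * A m i s * ext a i₀ v i) -
        ∑ i, ∑ m, (asum ℓ a)⁻¹ * (a i : ZMod ℓ) * a m * A m i s * ext a i₀ v m := by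
      rw [← sum_sub_distrib]
      refine sum_congr rfl fun i _ => ?_
      rw [mul_sum, ← sum_sub_distrib]
      exact sum_congr rfl fun m _ => by ring
    rw [e1, sub_eq_zero, sum_comm]
    refine sum_congr rfl fun i _ => sum_congr rfl fun m _ => ?_
    rw [hA i m s]
    ring
  rw [bt_betaG ha, mul_sum]
  refine sum_congr rfl fun i _ => ?_
  have h2 := ext_eq (i₀ := i₀) ha (fun i => ∑ m, (a m : ZMod ℓ) * (asum ℓ a)⁻¹ *
      (ext a i₀ v i - ext a i₀ v m) * A m i s) h1 i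
  have h3 : ext a i₀ (fun j => tauG a i₀ A v j s) i = ∑ m, (a m : ZMod ℓ) * (asum ℓ a)⁻¹ *
      (ext a i₀ v i - ext a i₀ v m) * A m i s := h2
  rw [h3, mul_sum, mul_sum, mul_sum]
  exact sum_congr rfl fun m _ => by ring

end Curve

end Pool.Agent.Helper54.PT
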